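import Pool.Agent.Helper76.CV.Goals

/-!
# Packet CV-ENC (MP_eec6f5_gt)
-/

namespace Pool.Agent.Helper8.CV.ENC

open Pool.Agent.Helper76.CV

theorem t : Pool.Agent.Helper76.CV.ENC := by
  intro c d hc0 hc1 hd
  have hd2 : d ^ 2 = 4 * c ^ 2 := by
    rcases hd with h | h <;> rw [h] <;> ring
  rcases le_total c (9424 / 10000) with hc | hc
  · left
    refine ⟨hc0.le, hc, by linarith, by linarith, ?_, Or.inl ⟨?_, ?_⟩, Or.inl ?_⟩
    · rw [hd2]; nlinarith
    · rw [hd2]; nlinarith [sq_nonneg (c - 12725 / 80000)]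
    · rcases le_total (8 * c) 4 with h | h
      · exact Or.inl h
      · right
        rw [hd2]
        nlinarith
    · rw [hd2]; nlinarith
  · right
    have hG : (24 / 10 : ℝ) ≤ 1 - c + d ^ 2 / (1421 / 1000) := by
      have h1 : (24 / 10 : ℝ) ≤ d ^ 2 / (1421 / 1000) := by
        rw [le_div_iff₀ (by norm_num), hd2]
        nlinarith
      linarith
    set G : ℝ := 1 - c + d ^ 2 / (1421 / 1000) with hGdef
    have hs : (15 / 10 : ℝ) ≤ √G := by
      apply Real.le_sqrt_of_sq_le
      nlinarith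
    refine ⟨hc, hc1, by linarith, ?_⟩
    rw [← hGdef, abs_of_pos (by linarith)]
    have h2 : G * (15 / 10) ≤ G * √G := mul_le_mul_of_nonneg_left hs (by linarith)
    nlinarith

end Pool.Agent.Helper8.CV.ENC
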